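import Pool.Agent.Helper492_GE.Gen

set_option autoImplicit false

namespace Pool.Agent.Helper492_GE

open Pool.Agent.Y110.FJ Pool.Agent.R684.FP

section asm

variable {K R : Type} [DivisionRing K] [Ring R] {ι : K →+* R} {ε : R →+* K}

theorem con_mem (y : (Matrix (Fin 2) (Fin 2) K)ˣ) : con ι y ∈ GE ι :=
  Subgroup.subset_closure (Or.inr ⟨y, rfl⟩)

/-- elementary matrices -/
def e12 (r : R) : (Matrix (Fin 2) (Fin 2) R)ˣ where
  val := !![1, r; 0, 1]
  inv := !![1, -r; 0, 1]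
  val_inv := by rw [Matrix.mul_fin_two, Matrix.one_fin_two]; simp
  inv_val := by rw [Matrix.mul_fin_two, Matrix.one_fin_two]; simp

/-- elementary matrices -/
def e21 (r : R) : (Matrix (Fin 2) (Fin 2) R)ˣ where
  val := !![1, 0; r, 1]
  inv := !![1, 0; -r, 1]
  val_inv := by rw [Matrix.mul_fin_two, Matrix.one_fin_two]; simp
  inv_val := by rw [Matrix.mul_fin_two, Matrix.one_fin_two]; simp

theorem e12_mem (r : R) : e12 r ∈ GE ι := Subgroup.subset_closure (Or.inl ⟨r, Or.inl rfl⟩)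

theorem e21_mem (r : R) : e21 r ∈ GE ι := Subgroup.subset_closure (Or.inl ⟨r, Or.inr rfl⟩)

theorem T_none (f : R) : 1 + T ι none none f = !![1, f; 0, 1] := by
  rw [Matrix.one_fin_two]
  ext a b
  fin_cases a <;> fin_cases b <;> simp [T, v, φ]

theorem T_zero' (f : R) : 1 + T ι (some 0) (some 0) f = !![1, 0; f, 1] := by
  rw [Matrix.one_fin_two]
  ext a b
  fin_cases a <;> fin_cases b <;> simp [T, v, φ]

/-- a constant matrix which maps the first line to the line of slope `c` -/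
def sl (c : K) : (Matrix (Fin 2) (Fin 2) K)ˣ where
  val := !![c, -1; 1, 0]
  inv := !![0, 1; -1, c]
  val_inv := by rw [Matrix.mul_fin_two, Matrix.one_fin_two]; simp
  inv_val := by rw [Matrix.mul_fin_two, Matrix.one_fin_two]; simp

theorem U_le_GE (i : Option K) : U ι ε i ≤ GE ι := by
  have h0 : U ι ε none ≤ GE ι := by
    rintro x ⟨f, _, hx⟩
    have h1 : x = e12 f := Units.ext (by rw [hx, T_none]; rfl)
    rw [h1]
    exact e12_mem f
  rcases i with _ | c
  · exact h0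
  · intro x hx
    have h1 := (conj_U ι ε (i := none) (j := some c) (κ := 1) (κ' := -1) one_ne_zero
      (neg_ne_zero.2 one_ne_zero) (sl c) (by
        rw [Fin.forall_fin_two]
        constructor <;> simp [sl, v])
      (by
        have h2 : ((sl c)⁻¹).val = !![0, 1; -1, c] := rfl
        rw [h2, Fin.forall_fin_two]
        constructor <;> simp [φ]) ((con ι (sl c))⁻¹ * x * con ι (sl c))).2
      (by
        have h3 : con ι (sl c) * ((con ι (sl c))⁻¹ * x * con ι (sl c)) * (con ι (sl c))⁻¹ = x := by group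
        rw [h3]
        exact hx)
    have h4 : x = con ι (sl c) * ((con ι (sl c))⁻¹ * x * con ι (sl c)) * (con ι (sl c))⁻¹ := by group
    rw [h4]
    exact mul_mem (mul_mem (con_mem _) (h0 h1)) (inv_mem (con_mem _))

theorem conj_M (y : (Matrix (Fin 2) (Fin 2) K)ˣ) {m : (Matrix (Fin 2) (Fin 2) R)ˣ}
    (hm : m ∈ ⨆ i, U ι ε i) : con ι y * m * (con ι y)⁻¹ ∈ ⨆ i, U ι ε i := by
  induction hm using Subgroup.iSup_induction' with
  | hp i x hx =>
    obtain ⟨j, κ, κ', hκ, hκ', hv, hφ⟩ := exists_line y i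
    exact Subgroup.mem_iSup_of_mem j ((conj_U ι ε hκ hκ' y hv hφ x).1 hx)
  | h1 => simp
  | hmul x z _ _ hx hz =>
    have h1 : con ι y * (x * z) * (con ι y)⁻¹ =
        (con ι y * x * (con ι y)⁻¹) * (con ι y * z * (con ι y)⁻¹) := by group
    rw [h1]
    exact mul_mem hx hz

theorem dec (hr : ∀ c, ε (ι c) = c) {g : (Matrix (Fin 2) (Fin 2) R)ˣ} (hg : g ∈ GE ι) :
    ∃ m ∈ ⨆ i, U ι ε i, ∃ y, g = m * con ι y := by
  induction hg using Subgroup.closure_induction with
  | mem x hx =>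
    rcases hx with ⟨r, hx | hx⟩ | ⟨y, hx⟩
    · refine ⟨e12 (r - ι (ε r)), Subgroup.mem_iSup_of_mem none ⟨r - ι (ε r), ?_, (T_none _).symm⟩,
        e12 (ε r), ?_⟩
      · rw [map_sub, hr, sub_self]
      · apply Units.ext
        rw [hx, Units.val_mul, con_val]
        have h1 : ((e12 (ε r) : (Matrix (Fin 2) (Fin 2) K)ˣ).val).map ι = !![1, ι (ε r); 0, 1] := by
          ext a b
          fin_cases a <;> fin_cases b <;> simp [e12]
        rw [h1]
        change _ = !![1, r - ι (ε r); 0, 1] * !![1, ι (ε r); 0, 1]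
        rw [Matrix.mul_fin_two]
        simp
    · refine ⟨e21 (r - ι (ε r)), Subgroup.mem_iSup_of_mem (some 0) ⟨r - ι (ε r), ?_, (T_zero' _).symm⟩,
        e21 (ε r), ?_⟩
      · rw [map_sub, hr, sub_self]
      · apply Units.ext
        rw [hx, Units.val_mul, con_val]
        have h1 : ((e21 (ε r) : (Matrix (Fin 2) (Fin 2) K)ˣ).val).map ι = !![1, 0; ι (ε r), 1] := by
          ext a b
          fin_cases a <;> fin_cases b <;> simp [e21]
        rw [h1]
        change _ = !![1, 0; r - ι (ε r), 1] * !![1, 0; ι (ε r), 1]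
        rw [Matrix.mul_fin_two]
        simp
    · exact ⟨1, one_mem _, y, by rw [one_mul]; exact Units.ext hx⟩
  | one => exact ⟨1, one_mem _, 1, by rw [map_one, mul_one]⟩
  | mul x z _ _ ihx ihz =>
    obtain ⟨m, hm, y, rfl⟩ := ihx
    obtain ⟨m', hm', y', rfl⟩ := ihz
    refine ⟨m * (con ι y * m' * (con ι y)⁻¹), mul_mem hm (conj_M y hm'), y * y', ?_⟩
    rw [map_mul]
    group
  | inv x _ ih =>
    obtain ⟨m, hm, y, rfl⟩ := ih
    refine ⟨con ι y⁻¹ * m⁻¹ * (con ι y⁻¹)⁻¹, conj_M _ (inv_mem hm), y⁻¹, ?_⟩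
    rw [map_inv]
    group

theorem red_M (hr : ∀ c, ε (ι c) = c) {m : (Matrix (Fin 2) (Fin 2) R)ˣ} (hm : m ∈ ⨆ i, U ι ε i) :
    red ε m = 1 := by
  have h1 : (⨆ i, U ι ε i) ≤ (red ε).ker := by
    refine iSup_le fun i => ?_
    rintro x ⟨f, hf, hx⟩
    rw [MonoidHom.mem_ker]
    apply Units.ext
    rw [red_val, hx]
    ext a b
    rw [Matrix.map_apply, Matrix.add_apply, T_apply, map_add, map_mul, map_mul, hf, mul_zero, zero_mul,
      add_zero, Matrix.one_apply]
    change _ = (1 : Matrix (Fin 2) (Fin 2) K) a b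
    rw [Matrix.one_apply]
    split_ifs
    · exact map_one ε
    · exact map_zero ε
  exact h1 hm

variable {C : ∀ (G : Type) [Group G], Prop}

/-- **the group `GE₂`** -/
theorem main_GE (hC : ClosedE C) (hF : FbC C) (hS : ∀ (S : Type) [Group S], Group.IsSolvable S → C S)
    {d : R → WithBot ℕ} (h : Graded ι ε d) (hK : C (Matrix (Fin 2) (Fin 2) K)ˣ) : C ↥(GE ι) := by
  have hr := h.ret
  let θ : ↥(GE ι) →* (Matrix (Fin 2) (Fin 2) R)ˣ := (GE ι).subtype
  let π : ↥(GE ι) →* (Matrix (Fin 2) (Fin 2) K)ˣ := (red ε).comp θ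
  let A : Option K → Subgroup ↥(GE ι) := fun i => (U ι ε i).subgroupOf (GE ι)
  have hlift : ∀ m ∈ ⨆ i, U ι ε i, ∃ m' ∈ ⨆ i, A i, (m' : (Matrix (Fin 2) (Fin 2) R)ˣ) = m := by
    intro m hm
    induction hm using Subgroup.iSup_induction' with
    | hp i x hx => exact ⟨⟨x, U_le_GE i hx⟩, Subgroup.mem_iSup_of_mem i hx, rfl⟩
    | h1 => exact ⟨1, one_mem _, rfl⟩
    | hmul x z _ _ hx hz =>
      obtain ⟨x', hx', rfl⟩ := hx
      obtain ⟨z', hz', rfl⟩ := hz
      exact ⟨x' * z', mul_mem hx' hz', rfl⟩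
  have hsup : ⨆ i, A i = π.ker := by
    refine le_antisymm (iSup_le fun i x hx => ?_) fun x hx => ?_
    · rw [MonoidHom.mem_ker]
      exact red_M hr (Subgroup.mem_iSup_of_mem i hx)
    · obtain ⟨m, hm, y, hy⟩ := dec hr x.2
      have h1 : red ε (x : (Matrix (Fin 2) (Fin 2) R)ˣ) = 1 := hx
      rw [hy, map_mul, red_M hr hm, one_mul, red_con hr] at h1
      rw [h1, map_one, mul_one] at hy
      obtain ⟨m', hm', hmm⟩ := hlift m hm
      have h2 : x = m' := Subtype.ext (hy.trans hmm.symm)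
      rw [h2]
      exact hm'
  have hfree : IsFreeProd π.ker A :=
    ⟨hsup, lift_injective θ A h (fun i x hx => hx) (fun x hx => Subtype.ext hx)⟩
  have hQ : C (↥(GE ι) ⧸ π.ker) :=
    hC.base.of_injective _ _ (QuotientGroup.kerLift π) (QuotientGroup.kerLift_injective π) hK
  refine main_all hC hF hQ A Set.univ hfree (fun i hi => absurd (Set.mem_univ i) hi) ?_ ?_
  · intro i _ g
    obtain ⟨m, hm, y, hy⟩ := dec hr g.2
    obtain ⟨m', hm', hmm⟩ := hlift m hm
    obtain ⟨j, κ, κ', hκ, hκ', hv, hφ⟩ := exists_line y i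
    refine ⟨j, Set.mem_univ _, m'⁻¹, ?_, fun x => ?_⟩
    · rw [← hsup]
      exact inv_mem hm'
    · have h1 := conj_U ι ε hκ hκ' y hv hφ (x : (Matrix (Fin 2) (Fin 2) R)ˣ)
      have h2 : ((m'⁻¹ * (g * x * g⁻¹) * m'⁻¹⁻¹ : ↥(GE ι)) : (Matrix (Fin 2) (Fin 2) R)ˣ) =
          con ι y * x * (con ι y)⁻¹ := by
        change (m' : (Matrix (Fin 2) (Fin 2) R)ˣ)⁻¹ * (g * x * (g : (Matrix (Fin 2) (Fin 2) R)ˣ)⁻¹) *
          (m' : (Matrix (Fin 2) (Fin 2) R)ˣ)⁻¹⁻¹ = _
        rw [hmm, hy]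
        group
      change (x : (Matrix (Fin 2) (Fin 2) R)ˣ) ∈ U ι ε i ↔
        ((m'⁻¹ * (g * x * g⁻¹) * m'⁻¹⁻¹ : ↥(GE ι)) : (Matrix (Fin 2) (Fin 2) R)ˣ) ∈ U ι ε j
      rw [h2]
      exact h1
  · intro i _ g hg
    refine hS _ (solv (A i) ?_ g hg)
    intro x hx z hz
    obtain ⟨f, _, hf⟩ := mem_U.1 (show (x : (Matrix (Fin 2) (Fin 2) R)ˣ) ∈ U ι ε i from hx)
    obtain ⟨f', _, hf'⟩ := mem_U.1 (show (z : (Matrix (Fin 2) (Fin 2) R)ˣ) ∈ U ι ε i from hz)
    apply Subtype.ext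
    apply Units.ext
    change (x : (Matrix (Fin 2) (Fin 2) R)ˣ).val * (z : (Matrix (Fin 2) (Fin 2) R)ˣ).val =
      (z : (Matrix (Fin 2) (Fin 2) R)ˣ).val * (x : (Matrix (Fin 2) (Fin 2) R)ˣ).val
    rw [hf, hf', add_mul, mul_add, mul_add, T_sq, add_mul, mul_add, mul_add, T_sq]
    simp only [one_mul, mul_one]
    abel

end asm

section poly

open Polynomial

variable {K : Type} [DivisionRing K]

theorem graded_poly : Graded (Polynomial.C : K →+* K[X]) Polynomial.constantCoeff Polynomial.degree where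
  ret c := by simp
  bot a := Polynomial.degree_eq_bot
  mul a b := Polynomial.degree_mul
  add a b := Polynomial.degree_add_le a b
  const a := by
    rw [Polynomial.degree_le_zero_iff]
    constructor
    · intro h
      exact ⟨_, h.symm⟩
    · rintro ⟨c, rfl⟩
      simp

theorem exists_div (a b : K[X]) (ha : a ≠ 0) : ∃ q r : K[X], b = a * q + r ∧ r.degree < a.degree := by
  have hu : a.leadingCoeff ≠ 0 := Polynomial.leadingCoeff_ne_zero.2 ha
  have hm : (a * Polynomial.C a.leadingCoeff⁻¹).Monic := by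
    rw [Polynomial.Monic, Polynomial.leadingCoeff_mul, Polynomial.leadingCoeff_C, mul_inv_cancel₀ hu]
  refine ⟨Polynomial.C a.leadingCoeff⁻¹ * (b /ₘ (a * Polynomial.C a.leadingCoeff⁻¹)),
    b %ₘ (a * Polynomial.C a.leadingCoeff⁻¹), ?_, ?_⟩
  · rw [← mul_assoc, add_comm]
    exact (Polynomial.modByMonic_add_div b _).symm
  · refine (Polynomial.degree_modByMonic_lt b hm).trans_eq ?_
    rw [Polynomial.degree_mul, Polynomial.degree_C (inv_ne_zero hu), add_zero]

end poly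

end Pool.Agent.Helper492_GE
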