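import Pool.Agent.Helper492_GE.Asm

set_option autoImplicit false

/-!
Unipotent subgroups of `GL₂` of a ring `R` with a degree function over a division ring `K` with a
complement of `K` in `R` as a bimodule.
-/

namespace Pool.Agent.Helper492_GE.Bim

open Pool.Agent.Helper492_GE

variable {Γ K R : Type} [AddCommMonoid Γ] [LinearOrder Γ] [IsOrderedCancelAddMonoid Γ]
  [DivisionRing K] [Ring R]

/-- `d` is a degree function on the ring `R` with values in `Γ ∪ {-∞}`, and the elements of degree at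
most zero are the elements of the division ring `K` -/
structure DegFn (ι : K →+* R) (d : R → WithBot Γ) : Prop where
  bot : ∀ a, d a = ⊥ ↔ a = 0
  mul : ∀ a b, d (a * b) = d a + d b
  add : ∀ a b, d (a + b) ≤ max (d a) (d b)
  const : ∀ a, d a ≤ 0 ↔ a ∈ Set.range ι

/-- `M` is a complement of `K` in `R` as a `K`-bimodule -/
structure BimCompl (ι : K →+* R) (M : AddSubgroup R) : Prop where
  left : ∀ c, ∀ m ∈ M, ι c * m ∈ M
  right : ∀ c, ∀ m ∈ M, m * ι c ∈ M
  sum : ∀ r, ∃ c, r - ι c ∈ M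
  inter : ∀ c, ι c ∈ M → c = 0

/-- the unipotent subgroup of a line -/
def U (ι : K →+* R) (M : AddSubgroup R) (i : Option K) : Subgroup (Matrix (Fin 2) (Fin 2) R)ˣ where
  carrier := {x | ∃ f ∈ M, x.val = 1 + T ι i i f}
  one_mem' := ⟨0, zero_mem M, by rw [T_zero, add_zero]; rfl⟩
  mul_mem' := by
    rintro x y ⟨f, hf, hx⟩ ⟨g, hg, hy⟩
    refine ⟨f + g, add_mem hf hg, ?_⟩
    rw [Units.val_mul, hx, hy, add_mul, mul_add, mul_add, T_sq, T_add, one_mul, mul_one, one_mul]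
    abel
  inv_mem' := by
    rintro x ⟨f, hf, hx⟩
    refine ⟨-f, neg_mem hf, ?_⟩
    have h1 : x.val * (1 + T ι i i (-f)) = 1 := by
      have h2 : T ι i i (-f) = - T ι i i f := by
        have h3 := T_add ι i i f (-f)
        rw [add_neg_cancel, T_zero] at h3
        exact eq_neg_of_add_eq_zero_right h3.symm
      rw [hx, h2, add_mul, mul_add, one_mul, one_mul, mul_add, mul_neg, T_sq]
      simp
    calc (x⁻¹).val = (x⁻¹).val * (x.val * (1 + T ι i i (-f))) := by rw [h1, mul_one]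
      _ = 1 + T ι i i (-f) := by rw [← mul_assoc, Units.inv_mul, one_mul]

theorem mem_U {ι : K →+* R} {M : AddSubgroup R} {i : Option K} {x : (Matrix (Fin 2) (Fin 2) R)ˣ} :
    x ∈ U ι M i ↔ ∃ f ∈ M, x.val = 1 + T ι i i f := Iff.rfl

section deg

variable [Nontrivial R] {ι : K →+* R} {d : R → WithBot Γ} (h : DegFn ι d)

include h

theorem d_zero : d 0 = ⊥ := (h.bot 0).2 rfl

omit [LinearOrder Γ] [IsOrderedCancelAddMonoid Γ] h in
theorem ι_inj {c : K} (hc : ι c = 0) : c = 0 := by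
  by_contra h0
  have h1 : ι (c * c⁻¹) = 1 := by rw [mul_inv_cancel₀ h0, map_one]
  rw [map_mul, hc, zero_mul] at h1
  exact zero_ne_one h1

theorem d_const_le (c : K) : d (ι c) ≤ 0 := (h.const _).2 ⟨c, rfl⟩

theorem d_one : d 1 = 0 := by
  have h1 : d (1 : R) ≠ ⊥ := fun h3 => one_ne_zero ((h.bot _).1 h3)
  obtain ⟨n, hn⟩ := WithBot.ne_bot_iff_exists.1 h1
  have h2 := h.mul 1 1
  rw [mul_one, ← hn, ← WithBot.coe_add, WithBot.coe_inj] at h2
  rw [← hn]
  have h3 : n = 0 := by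
    have h4 : n + 0 = n + n := by rw [add_zero]; exact h2
    exact (add_left_cancel h4).symm
  rw [h3]
  rfl

theorem d_const {c : K} (hc : c ≠ 0) : d (ι c) = 0 := by
  refine le_antisymm (d_const_le h c) ?_
  by_contra h1
  push Not at h1
  have h2 : d (ι c) + d (ι c⁻¹) = 0 := by
    rw [← h.mul, ← map_mul, mul_inv_cancel₀ hc, map_one, d_one h]
  have h3 : d (ι c) + d (ι c⁻¹) ≤ d (ι c) + 0 := add_le_add le_rfl (d_const_le h _)
  rw [h2, add_zero] at h3
  exact absurd h1 (not_lt.2 h3)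

omit [Nontrivial R] in
theorem add_lt' {x y : R} {n : WithBot Γ} (hx : d x < n) (hy : d y < n) : d (x + y) < n :=
  (h.add x y).trans_lt (max_lt hx hy)

omit [Nontrivial R] in
theorem mul_lt' {x y : R} {a b : Γ} (hx : d x ≤ a) (hy : d y < b) :
    d (x * y) < ((a + b : Γ) : WithBot Γ) := by
  rw [h.mul]
  rcases hdx : d x with _ | m
  · exact (WithBot.bot_add _).trans_lt (WithBot.bot_lt_coe _)
  · rcases hdy : d y with _ | n
    · exact (WithBot.add_bot _).trans_lt (WithBot.bot_lt_coe _)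
    · rw [hdx] at hx
      rw [hdy] at hy
      have h1 : m ≤ a := WithBot.coe_le_coe.1 hx
      have h2 : n < b := WithBot.coe_lt_coe.1 hy
      exact WithBot.coe_lt_coe.2 (add_lt_add_of_le_of_lt h1 h2)

omit [Nontrivial R] in
theorem mul_lt'' {x y : R} {a b : Γ} (hx : d x < a) (hy : d y ≤ b) :
    d (x * y) < ((a + b : Γ) : WithBot Γ) := by
  rw [h.mul]
  rcases hdx : d x with _ | m
  · exact (WithBot.bot_add _).trans_lt (WithBot.bot_lt_coe _)
  · rcases hdy : d y with _ | n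
    · exact (WithBot.add_bot _).trans_lt (WithBot.bot_lt_coe _)
    · rw [hdx] at hx
      rw [hdy] at hy
      have h1 : m < a := WithBot.coe_lt_coe.1 hx
      have h2 : n ≤ b := WithBot.coe_le_coe.1 hy
      exact WithBot.coe_lt_coe.2 (add_lt_add_of_lt_of_le h1 h2)

omit [Nontrivial R] in
theorem T_le {i j : Option K} {f : R} {n : Γ} (hf : d f = n) (a b : Fin 2) :
    d (T ι i j f a b) ≤ n := by
  rw [T_apply, h.mul, h.mul, hf]
  calc d (ι (v i a)) + (n : WithBot Γ) + d (ι (φ j b)) ≤ 0 + (n : WithBot Γ) + 0 :=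
        add_le_add (add_le_add ((h.const _).2 ⟨_, rfl⟩) le_rfl) ((h.const _).2 ⟨_, rfl⟩)
    _ = n := by rw [zero_add, add_zero]

omit [Nontrivial R] in
theorem mat_lt {M M' : Matrix (Fin 2) (Fin 2) R} {a b : Γ} (hM : ∀ i j, d (M i j) ≤ a)
    (hM' : ∀ i j, d (M' i j) < b) (i j : Fin 2) : d ((M * M') i j) < ((a + b : Γ) : WithBot Γ) := by
  rw [Matrix.mul_apply, Fin.sum_univ_two]
  exact add_lt' h (mul_lt' h (hM _ _) (hM' _ _)) (mul_lt' h (hM _ _) (hM' _ _))

omit [Nontrivial R] in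
theorem mat_lt' {M M' : Matrix (Fin 2) (Fin 2) R} {a b : Γ} (hM : ∀ i j, d (M i j) < a)
    (hM' : ∀ i j, d (M' i j) ≤ b) (i j : Fin 2) : d ((M * M') i j) < ((a + b : Γ) : WithBot Γ) := by
  rw [Matrix.mul_apply, Fin.sum_univ_two]
  exact add_lt' h (mul_lt'' h (hM _ _) (hM' _ _)) (mul_lt'' h (hM _ _) (hM' _ _))

theorem one_le' (i j : Fin 2) : d ((1 : Matrix (Fin 2) (Fin 2) R) i j) ≤ 0 := by
  rw [Matrix.one_apply]
  split_ifs
  · exact (d_one h).le
  · rw [d_zero h]
    exact bot_le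

omit [Nontrivial R] in
theorem deg_pos {M : AddSubgroup R} (hM : BimCompl ι M) {f : R} (hfM : f ∈ M) (hf : f ≠ 0) :
    ∃ n : Γ, 0 < n ∧ d f = n := by
  obtain ⟨n, hn⟩ := WithBot.ne_bot_iff_exists.1 (fun h1 => hf ((h.bot f).1 h1))
  refine ⟨n, ?_, hn.symm⟩
  by_contra h2
  push Not at h2
  have h4 : d f ≤ 0 := by
    rw [← hn]
    exact WithBot.coe_le_coe.2 h2
  obtain ⟨c, hc⟩ := (h.const f).1 h4
  rw [← hc] at hfM
  have h5 := hM.inter c hfM
  rw [h5, map_zero] at hc
  exact hf hc.symm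

end deg

section free

variable [Nontrivial R] {ι : K →+* R} {M : AddSubgroup R} {d : R → WithBot Γ}
variable {G : Type} [Group G] (θ : G →* (Matrix (Fin 2) (Fin 2) R)ˣ) (A : Option K → Subgroup G)

/-- reduced words have a leading term -/
theorem leading (h : DegFn ι d) (hM : BimCompl ι M) (hA : ∀ i, ∀ x ∈ A i, θ x ∈ U ι M i)
    (hθ : ∀ x, θ x = 1 → x = 1)
    {i j : Option K} (w : Monoid.CoprodI.NeWord (fun i => A i) i j) :
    ∃ (f : R) (D : Γ) (E : Matrix (Fin 2) (Fin 2) R), 0 < D ∧ d f = D ∧ (∀ a b, d (E a b) < D) ∧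
      (θ (Monoid.CoprodI.lift (fun i => (A i).subtype) w.prod)).val = T ι i j f + E := by
  induction w with
  | @singleton i x hx =>
    obtain ⟨f, hf, hxf⟩ := mem_U.1 (hA i x x.2)
    have hf0 : f ≠ 0 := by
      rintro rfl
      rw [T_zero, add_zero] at hxf
      exact hx (Subtype.ext (hθ _ (Units.ext hxf)))
    obtain ⟨n, hn, hdn⟩ := deg_pos h hM hf hf0
    refine ⟨f, n, 1, hn, hdn, fun a b => (one_le' h a b).trans_lt (WithBot.coe_lt_coe.2 hn), ?_⟩
    rw [Monoid.CoprodI.NeWord.prod_singleton, Monoid.CoprodI.lift_of, add_comm]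
    exact hxf
  | @append i j k l w₁ hne w₂ ih₁ ih₂ =>
    obtain ⟨f, D, E, hD, hf, hE, h1⟩ := ih₁
    obtain ⟨f', D', E', hD', hf', hE', h2⟩ := ih₂
    refine ⟨f * ι (pr j k) * f', D + D', T ι i j f * E' + E * T ι k l f' + E * E',
      add_pos hD hD', ?_, ?_, ?_⟩
    · rw [h.mul, h.mul, d_const h (pr_ne hne), hf, hf', add_zero]
      rfl
    · intro a b
      have h3 := mat_lt h (T_le h hf) hE' a b (ι := ι) (M := T ι i j f)
      have h4 := mat_lt' h hE (T_le h hf') a b (ι := ι) (M' := T ι k l f')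
      have h5 := mat_lt h (M := E) (M' := E') (a := D) (b := D') (fun i j => (hE i j).le) hE' a b
      rw [Matrix.add_apply, Matrix.add_apply]
      exact add_lt' h (add_lt' h h3 h4) h5
    · rw [Monoid.CoprodI.NeWord.append_prod, map_mul, map_mul, Units.val_mul, h1, h2, add_mul, mul_add,
        mul_add, T_mul]
      abel

/-- reduced words are not constant -/
theorem not_const (h : DegFn ι d) (hM : BimCompl ι M) (hA : ∀ i, ∀ x ∈ A i, θ x ∈ U ι M i)
    (hθ : ∀ x, θ x = 1 → x = 1)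
    {i j : Option K} (w : Monoid.CoprodI.NeWord (fun i => A i) i j)
    (h0 : ∀ a b, d ((θ (Monoid.CoprodI.lift (fun i => (A i).subtype) w.prod)).val a b) ≤ 0) :
    False := by
  obtain ⟨f, D, E, hD, hf, hE, h1⟩ := leading θ A h hM hA hθ w
  have hD' : (0 : WithBot Γ) < D := WithBot.coe_lt_coe.2 hD
  have h2 : ∀ a b, d (T ι i j f a b) < D := by
    intro a b
    have h3 : T ι i j f = (θ (Monoid.CoprodI.lift (fun i => (A i).subtype) w.prod)).val + ι (-1) • E := by
      rw [h1, map_neg, map_one, neg_smul, one_smul]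
      abel
    rw [h3, Matrix.add_apply, Matrix.smul_apply, smul_eq_mul]
    refine add_lt' h ((h0 a b).trans_lt hD') ?_
    have h5 := mul_lt' h (x := ι (-1)) (y := E a b) (a := 0) (b := D) (d_const_le h _) (hE a b)
    rwa [zero_add] at h5
  have h3 : ∃ a, v i a ≠ 0 := by
    rcases i with _ | c
    · exact ⟨0, by simp [v]⟩
    · exact ⟨1, by simp [v]⟩
  have h4 : ∃ b, φ j b ≠ 0 := by
    rcases j with _ | c
    · exact ⟨1, by simp [φ]⟩
    · exact ⟨0, by simp [φ]⟩
  obtain ⟨a, ha⟩ := h3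
  obtain ⟨b, hb⟩ := h4
  have h5 := h2 a b
  rw [T_apply, h.mul, h.mul, d_const h ha, d_const h hb, hf, zero_add, add_zero] at h5
  exact lt_irrefl _ h5

theorem word_eq (h : DegFn ι d) (hM : BimCompl ι M) (hA : ∀ i, ∀ x ∈ A i, θ x ∈ U ι M i)
    (hθ : ∀ x, θ x = 1 → x = 1) (g : Monoid.CoprodI (fun i => A i))
    (h0 : ∀ a b, d ((θ (Monoid.CoprodI.lift (fun i => (A i).subtype) g)).val a b) ≤ 0) : g = 1 := by
  classical
  obtain ⟨w, rfl⟩ := Monoid.CoprodI.Word.equiv.symm.surjective g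
  have hw : w = Monoid.CoprodI.Word.empty := by
    by_contra hnotempty
    obtain ⟨i, j, w, rfl⟩ := Monoid.CoprodI.NeWord.of_word w hnotempty
    exact not_const θ A h hM hA hθ w h0
  rw [hw]
  exact Monoid.CoprodI.Word.prod_empty

theorem lift_injective (h : DegFn ι d) (hM : BimCompl ι M) (hA : ∀ i, ∀ x ∈ A i, θ x ∈ U ι M i)
    (hθ : ∀ x, θ x = 1 → x = 1) :
    Function.Injective (Monoid.CoprodI.lift fun i => (A i).subtype) := by
  rw [injective_iff_map_eq_one]
  intro g hg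
  apply word_eq θ A h hM hA hθ g
  rw [hg, map_one]
  exact one_le' h

/-- the elements of the free product which are constant are trivial -/
theorem const_eq_one (h : DegFn ι d) (hM : BimCompl ι M) (hA : ∀ i, ∀ x ∈ A i, θ x ∈ U ι M i)
    (hθ : ∀ x, θ x = 1 → x = 1) {g : G} (hg : g ∈ ⨆ i, A i)
    (h0 : ∀ a b, d ((θ g).val a b) ≤ 0) : g = 1 := by
  have h1 : (⨆ i, A i) ≤ (Monoid.CoprodI.lift fun i => (A i).subtype).range := by
    refine iSup_le fun i x hx => ?_
    exact ⟨Monoid.CoprodI.of (⟨x, hx⟩ : A i), by rw [Monoid.CoprodI.lift_of]; rfl⟩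
  obtain ⟨g', rfl⟩ := h1 hg
  rw [word_eq θ A h hM hA hθ g' h0, map_one]

end free

end Pool.Agent.Helper492_GE.Bim
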