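import Pool.Agent.Helper492_GE.Bim

set_option autoImplicit false

/-!
The groups `GE₂` of rings with a degree function.
-/

namespace Pool.Agent.Helper492_GE.Bim

open Pool.Agent.Helper492_GE Pool.Agent.Y110.FJ Pool.Agent.R684.FP

variable {Γ K R : Type} [AddCommMonoid Γ] [LinearOrder Γ] [IsOrderedCancelAddMonoid Γ]
  [DivisionRing K] [Ring R]

/-- the matrices `1 + a m b` with a column `a` and a row `b` over `K`, `b a = 0`, and `m` in `M` -/
def Tr (ι : K →+* R) (M : AddSubgroup R) : Set (Matrix (Fin 2) (Fin 2) R)ˣ :=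
  {x | ∃ a b : Fin 2 → K, b 0 * a 0 + b 1 * a 1 = 0 ∧ ∃ m ∈ M,
    x.val = 1 + Matrix.of fun i j => ι (a i) * m * ι (b j)}

/-- the group generated by `H` and the matrices `1 + a m b`, `m` in `M` -/
def BE (ι : K →+* R) (M : AddSubgroup R) (H : Subgroup (Matrix (Fin 2) (Fin 2) K)ˣ) :
    Subgroup (Matrix (Fin 2) (Fin 2) R)ˣ :=
  Subgroup.closure (Tr ι M ∪ con ι '' H)

theorem line_of (w ψ : Fin 2 → K) (hw0 : ¬ (w 0 = 0 ∧ w 1 = 0)) (hψ0 : ¬ (ψ 0 = 0 ∧ ψ 1 = 0))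
    (hp : ψ 0 * w 0 + ψ 1 * w 1 = 0) : ∃ (j : Option K) (κ κ' : K),
    (∀ a, w a = v j a * κ) ∧ ∀ b, ψ b = κ' * φ j b := by
  by_cases h1 : w 1 = 0
  · have h0 : w 0 ≠ 0 := fun h => hw0 ⟨h, h1⟩
    have hψz : ψ 0 = 0 := by
      rw [h1, mul_zero, add_zero] at hp
      exact (mul_eq_zero.1 hp).resolve_right h0
    refine ⟨none, w 0, ψ 1, fun a => ?_, fun b => ?_⟩
    · fin_cases a
      · simp [v]
      · simp [v, h1]
    · fin_cases b
      · simp [φ, hψz]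
      · simp [φ]
  · have h2 : ψ 1 = -(ψ 0 * (w 0 * (w 1)⁻¹)) := by
      have h3 : ψ 1 * w 1 = -(ψ 0 * w 0) := eq_neg_of_add_eq_zero_right hp
      calc ψ 1 = ψ 1 * w 1 * (w 1)⁻¹ := by rw [mul_assoc, mul_inv_cancel₀ h1, mul_one]
        _ = _ := by rw [h3, neg_mul, mul_assoc]
    refine ⟨some (w 0 * (w 1)⁻¹), w 1, ψ 0, fun a => ?_, fun b => ?_⟩
    · fin_cases a
      · simp [v, mul_assoc, inv_mul_cancel₀ h1]
      · simp [v]
    · fin_cases b
      · simp [φ]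
      · simp [φ, h2]

variable {ι : K →+* R} {M : AddSubgroup R}

theorem tr_mem (hM : BimCompl ι M) {x : (Matrix (Fin 2) (Fin 2) R)ˣ} (hx : x ∈ Tr ι M) :
    x ∈ ⨆ i, U ι M i := by
  obtain ⟨a, b, hab, m, hm, hx⟩ := hx
  have h1 : (a 0 = 0 ∧ a 1 = 0) ∨ (b 0 = 0 ∧ b 1 = 0) → x = 1 := by
    intro h
    apply Units.ext
    rw [hx]
    have h2 : (Matrix.of fun i j => ι (a i) * m * ι (b j)) = (0 : Matrix (Fin 2) (Fin 2) R) := by
      ext i j
      rw [Matrix.of_apply, Matrix.zero_apply]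
      rcases h with ⟨h, h'⟩ | ⟨h, h'⟩
      · have h3 : a i = 0 := by
          revert i
          rw [Fin.forall_fin_two]
          exact ⟨h, h'⟩
        rw [h3, map_zero, zero_mul, zero_mul]
      · have h3 : b j = 0 := by
          revert j
          rw [Fin.forall_fin_two]
          exact ⟨h, h'⟩
        rw [h3, map_zero, mul_zero]
    rw [h2, add_zero]
    rfl
  by_cases ha : a 0 = 0 ∧ a 1 = 0
  · rw [h1 (Or.inl ha)]
    exact one_mem _
  by_cases hb : b 0 = 0 ∧ b 1 = 0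
  · rw [h1 (Or.inr hb)]
    exact one_mem _
  obtain ⟨j, κ, κ', hκ, hκ'⟩ := line_of a b ha hb hab
  refine Subgroup.mem_iSup_of_mem j ⟨ι κ * m * ι κ', hM.right _ _ (hM.left _ _ hm), ?_⟩
  rw [hx]
  congr 1
  ext i k
  rw [Matrix.of_apply, T_apply, hκ i, hκ' k]
  simp only [map_mul, mul_assoc]

theorem U_sub_Tr (i : Option K) : (U ι M i : Set (Matrix (Fin 2) (Fin 2) R)ˣ) ⊆ Tr ι M := by
  rintro x ⟨f, hf, hx⟩
  refine ⟨v i, φ i, ?_, f, hf, hx⟩
  have h1 := pr_self i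
  unfold pr at h1
  exact h1

theorem conj_U (hM : BimCompl ι M) {i j : Option K} {κ κ' : K}
    (hκ : κ ≠ 0) (hκ' : κ' ≠ 0) (y : (Matrix (Fin 2) (Fin 2) K)ˣ)
    (hv : ∀ a, y.val a 0 * v i 0 + y.val a 1 * v i 1 = v j a * κ)
    (hφ : ∀ b, φ i 0 * (y⁻¹).val 0 b + φ i 1 * (y⁻¹).val 1 b = κ' * φ j b)
    (x : (Matrix (Fin 2) (Fin 2) R)ˣ) :
    x ∈ U ι M i ↔ con ι y * x * (con ι y)⁻¹ ∈ U ι M j := by
  constructor
  · rintro ⟨f, hf, hx⟩
    refine ⟨ι κ * f * ι κ', hM.right _ _ (hM.left _ _ hf), ?_⟩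
    rw [← T_conj ι y hv hφ, Units.val_mul, Units.val_mul, hx, mul_add, add_mul, mul_one, Units.mul_inv]
  · rintro ⟨f, hf, hx⟩
    refine ⟨ι κ⁻¹ * f * ι κ'⁻¹, hM.right _ _ (hM.left _ _ hf), ?_⟩
    have h1 : T ι j j f = (con ι y).val * T ι i i (ι κ⁻¹ * f * ι κ'⁻¹) * ((con ι y)⁻¹).val := by
      rw [T_conj ι y hv hφ]
      congr 1
      calc f = ι (κ * κ⁻¹) * f * ι (κ'⁻¹ * κ') := by
            rw [mul_inv_cancel₀ hκ, inv_mul_cancel₀ hκ', map_one, one_mul, mul_one]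
        _ = _ := by simp only [map_mul, mul_assoc]
    rw [h1, Units.val_mul, Units.val_mul] at hx
    have h2 : x.val = ((con ι y)⁻¹).val * ((con ι y).val * x.val * ((con ι y)⁻¹).val) * (con ι y).val := by
      simp only [mul_assoc, Units.inv_mul, mul_one]
      rw [← mul_assoc, Units.inv_mul, one_mul]
    rw [h2, hx, mul_add, add_mul, mul_one, Units.inv_mul]
    congr 1
    simp only [mul_assoc, Units.inv_mul, mul_one]
    rw [← mul_assoc, Units.inv_mul, one_mul]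

theorem conj_M (hM : BimCompl ι M) (y : (Matrix (Fin 2) (Fin 2) K)ˣ)
    {m : (Matrix (Fin 2) (Fin 2) R)ˣ}
    (hm : m ∈ ⨆ i, U ι M i) : con ι y * m * (con ι y)⁻¹ ∈ ⨆ i, U ι M i := by
  induction hm using Subgroup.iSup_induction' with
  | hp i x hx =>
    obtain ⟨j, κ, κ', hκ, hκ', hv, hφ⟩ := exists_line y i
    exact Subgroup.mem_iSup_of_mem j ((conj_U hM hκ hκ' y hv hφ x).1 hx)
  | h1 => simp
  | hmul x z _ _ hx hz =>
    have h1 : con ι y * (x * z) * (con ι y)⁻¹ =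
        (con ι y * x * (con ι y)⁻¹) * (con ι y * z * (con ι y)⁻¹) := by group
    rw [h1]
    exact mul_mem hx hz

theorem dec (hM : BimCompl ι M) {H : Subgroup (Matrix (Fin 2) (Fin 2) K)ˣ}
    {g : (Matrix (Fin 2) (Fin 2) R)ˣ} (hg : g ∈ BE ι M H) :
    ∃ m ∈ ⨆ i, U ι M i, ∃ y ∈ H, g = m * con ι y := by
  induction hg using Subgroup.closure_induction with
  | mem x hx =>
    rcases hx with hx | ⟨y, hy, rfl⟩
    · exact ⟨x, tr_mem hM hx, 1, one_mem _, by rw [map_one, mul_one]⟩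
    · exact ⟨1, one_mem _, y, hy, by rw [one_mul]⟩
  | one => exact ⟨1, one_mem _, 1, one_mem _, by rw [map_one, mul_one]⟩
  | mul x z _ _ ihx ihz =>
    obtain ⟨m, hm, y, hy, rfl⟩ := ihx
    obtain ⟨m', hm', y', hy', rfl⟩ := ihz
    refine ⟨m * (con ι y * m' * (con ι y)⁻¹), mul_mem hm (conj_M hM y hm'), y * y', mul_mem hy hy', ?_⟩
    rw [map_mul]
    group
  | inv x _ ih =>
    obtain ⟨m, hm, y, hy, rfl⟩ := ih
    refine ⟨con ι y⁻¹ * m⁻¹ * (con ι y⁻¹)⁻¹, conj_M hM _ (inv_mem hm), y⁻¹, inv_mem hy, ?_⟩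
    rw [map_inv]
    group

theorem U_le_BE (H : Subgroup (Matrix (Fin 2) (Fin 2) K)ˣ) (i : Option K) : U ι M i ≤ BE ι M H :=
  fun _ hx => Subgroup.subset_closure (Or.inl (U_sub_Tr i hx))

theorem con_mem_BE {H : Subgroup (Matrix (Fin 2) (Fin 2) K)ˣ} {y : (Matrix (Fin 2) (Fin 2) K)ˣ}
    (hy : y ∈ H) : con ι y ∈ BE ι M H :=
  Subgroup.subset_closure (Or.inr ⟨y, hy, rfl⟩)

theorem con_inj [Nontrivial R] : Function.Injective (con ι) := by
  apply Units.map_injective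
  intro M M' h
  ext a b
  exact ι.injective (congrFun (congrFun h a) b)

variable {C : ∀ (G : Type) [Group G], Prop}

/-- **the group generated by a group of constant matrices and the transvections** -/
theorem main_BE [Nontrivial R] (hC : ClosedE C) (hF : FbC C)
    (hS : ∀ (S : Type) [Group S], Group.IsSolvable S → C S)
    {d : R → WithBot Γ} (h : DegFn ι d) (hM : BimCompl ι M)
    (H : Subgroup (Matrix (Fin 2) (Fin 2) K)ˣ) (hK : C H) : C ↥(BE ι M H) := by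
  let θ : ↥(BE ι M H) →* (Matrix (Fin 2) (Fin 2) R)ˣ := (BE ι M H).subtype
  let A : Option K → Subgroup ↥(BE ι M H) := fun i => (U ι M i).subgroupOf (BE ι M H)
  have hlift : ∀ m ∈ ⨆ i, U ι M i, ∃ m' ∈ ⨆ i, A i, (m' : (Matrix (Fin 2) (Fin 2) R)ˣ) = m := by
    intro m hm
    induction hm using Subgroup.iSup_induction' with
    | hp i x hx => exact ⟨⟨x, U_le_BE H i hx⟩, Subgroup.mem_iSup_of_mem i hx, rfl⟩
    | h1 => exact ⟨1, one_mem _, rfl⟩
    | hmul x z _ _ hx hz =>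
      obtain ⟨x', hx', rfl⟩ := hx
      obtain ⟨z', hz', rfl⟩ := hz
      exact ⟨x' * z', mul_mem hx' hz', rfl⟩
  have hval : ∀ m ∈ ⨆ i, A i, (m : (Matrix (Fin 2) (Fin 2) R)ˣ) ∈ ⨆ i, U ι M i := by
    intro m hm
    have h1 : (⨆ i, A i) ≤ (⨆ i, U ι M i).comap θ :=
      iSup_le fun i x hx => Subgroup.mem_iSup_of_mem i hx
    exact h1 hm
  have hlift' : ∀ m : ↥(BE ι M H), (m : (Matrix (Fin 2) (Fin 2) R)ˣ) ∈ ⨆ i, U ι M i →
      m ∈ ⨆ i, A i := by
    intro m hm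
    obtain ⟨m', hm', h1⟩ := hlift m hm
    rw [← Subtype.ext h1]
    exact hm'
  let N : Subgroup ↥(BE ι M H) := ⨆ i, A i
  have hN : N.Normal := by
    refine ⟨fun n hn g => ?_⟩
    obtain ⟨m, hm, y, hy, hg⟩ := dec hM g.2
    apply hlift'
    change (g : (Matrix (Fin 2) (Fin 2) R)ˣ) * n * (g : (Matrix (Fin 2) (Fin 2) R)ˣ)⁻¹ ∈ _
    rw [hg]
    have h1 := mul_mem (mul_mem hm (conj_M hM y (hval n hn))) (inv_mem hm)
    have h2 : m * (con ι y * n * (con ι y)⁻¹) * m⁻¹ = m * con ι y * n * (m * con ι y)⁻¹ := by group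
    rw [← h2]
    exact h1
  have hfree : IsFreeProd N A :=
    ⟨rfl, lift_injective θ A h hM (fun i x hx => hx) (fun x hx => Subtype.ext hx)⟩
  -- the quotient
  let q : H →* ↥(BE ι M H) ⧸ N :=
    (QuotientGroup.mk' N).comp (((con ι).comp H.subtype).codRestrict _ fun y => con_mem_BE y.2)
  have hq : Function.Bijective q := by
    constructor
    · rw [injective_iff_map_eq_one]
      intro y hy
      have h1 : (⟨con ι y, con_mem_BE y.2⟩ : ↥(BE ι M H)) ∈ N := (QuotientGroup.eq_one_iff _).1 hy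
      have h2 : (⟨con ι y, con_mem_BE y.2⟩ : ↥(BE ι M H)) = 1 := by
        refine const_eq_one θ A h hM (fun i x hx => hx) (fun x hx => Subtype.ext hx) h1 ?_
        intro a b
        exact (h.const _).2 ⟨_, rfl⟩
      have h3 : con ι (y : (Matrix (Fin 2) (Fin 2) K)ˣ) = con ι 1 := by
        rw [map_one]
        exact congrArg Subtype.val h2
      exact Subtype.ext (con_inj h3)
    · intro x
      obtain ⟨g, rfl⟩ := QuotientGroup.mk'_surjective N x
      obtain ⟨m, hm, y, hy, hg⟩ := dec hM g.2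
      refine ⟨⟨y, hy⟩, ?_⟩
      obtain ⟨m', hm', hmm⟩ := hlift m hm
      have h1 : g = m' * ⟨con ι y, con_mem_BE hy⟩ := by
        apply Subtype.ext
        change (g : (Matrix (Fin 2) (Fin 2) R)ˣ) = (m' : (Matrix (Fin 2) (Fin 2) R)ˣ) * con ι y
        rw [hmm, hg]
      rw [h1, map_mul]
      have h2 : QuotientGroup.mk' N m' = 1 := (QuotientGroup.eq_one_iff _).2 hm'
      rw [h2, one_mul]
      rfl
  have hQ : C (↥(BE ι M H) ⧸ N) :=
    hC.base.of_injective _ _ (MulEquiv.ofBijective q hq).symm.toMonoidHom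
      (MulEquiv.ofBijective q hq).symm.injective hK
  refine main_all hC hF hQ A Set.univ hfree (fun i hi => absurd (Set.mem_univ i) hi) ?_ ?_
  · intro i _ g
    obtain ⟨m, hm, y, hy0, hy⟩ := dec hM g.2
    obtain ⟨m', hm', hmm⟩ := hlift m hm
    obtain ⟨j, κ, κ', hκ, hκ', hv, hφ⟩ := exists_line y i
    refine ⟨j, Set.mem_univ _, m'⁻¹, inv_mem hm', fun x => ?_⟩
    have h1 := conj_U hM hκ hκ' y hv hφ (x : (Matrix (Fin 2) (Fin 2) R)ˣ)
    have h2 : ((m'⁻¹ * (g * x * g⁻¹) * m'⁻¹⁻¹ : ↥(BE ι M H)) : (Matrix (Fin 2) (Fin 2) R)ˣ) =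
        con ι y * x * (con ι y)⁻¹ := by
      change (m' : (Matrix (Fin 2) (Fin 2) R)ˣ)⁻¹ * (g * x * (g : (Matrix (Fin 2) (Fin 2) R)ˣ)⁻¹) *
        (m' : (Matrix (Fin 2) (Fin 2) R)ˣ)⁻¹⁻¹ = _
      rw [hmm, hy]
      group
    change (x : (Matrix (Fin 2) (Fin 2) R)ˣ) ∈ U ι M i ↔
      ((m'⁻¹ * (g * x * g⁻¹) * m'⁻¹⁻¹ : ↥(BE ι M H)) : (Matrix (Fin 2) (Fin 2) R)ˣ) ∈ U ι M j
    rw [h2]
    exact h1
  · intro i _ g hg
    refine hS _ (solv (A i) ?_ g hg)
    intro x hx z hz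
    obtain ⟨f, _, hf⟩ := mem_U.1 (show (x : (Matrix (Fin 2) (Fin 2) R)ˣ) ∈ U ι M i from hx)
    obtain ⟨f', _, hf'⟩ := mem_U.1 (show (z : (Matrix (Fin 2) (Fin 2) R)ˣ) ∈ U ι M i from hz)
    apply Subtype.ext
    apply Units.ext
    change (x : (Matrix (Fin 2) (Fin 2) R)ˣ).val * (z : (Matrix (Fin 2) (Fin 2) R)ˣ).val =
      (z : (Matrix (Fin 2) (Fin 2) R)ˣ).val * (x : (Matrix (Fin 2) (Fin 2) R)ˣ).val
    rw [hf, hf', add_mul, mul_add, mul_add, T_sq, add_mul, mul_add, mul_add, T_sq]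
    simp only [one_mul, mul_one]
    abel

theorem iff_BE [Nontrivial R] (hC : ClosedE C) (hF : FbC C)
    (hS : ∀ (S : Type) [Group S], Group.IsSolvable S → C S)
    {d : R → WithBot Γ} (h : DegFn ι d) (hM : BimCompl ι M)
    (H : Subgroup (Matrix (Fin 2) (Fin 2) K)ˣ) : C ↥(BE ι M H) ↔ C H := by
  refine ⟨fun h1 => ?_, main_BE hC hF hS h hM H⟩
  refine hC.base.of_injective _ _ (((con ι).comp H.subtype).codRestrict (BE ι M H)
    fun y => con_mem_BE y.2) (fun x y hxy => ?_) h1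
  exact Subtype.ext (con_inj (congrArg Subtype.val hxy))

theorem e12_BE (hM : BimCompl ι M) (r : R) : e12 r ∈ BE ι M ⊤ := by
  obtain ⟨c, hc⟩ := hM.sum r
  have h1 : e12 r = e12 (r - ι c) * con ι (e12 c) := by
    apply Units.ext
    rw [Units.val_mul, con_val]
    have h1 : ((e12 c : (Matrix (Fin 2) (Fin 2) K)ˣ).val).map ι = !![1, ι c; 0, 1] := by
      ext a b
      fin_cases a <;> fin_cases b <;> simp [e12]
    rw [h1]
    change !![1, r; 0, 1] = !![1, r - ι c; 0, 1] * !![1, ι c; 0, 1]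
    rw [Matrix.mul_fin_two]
    simp
  rw [h1]
  exact mul_mem (U_le_BE ⊤ none ⟨r - ι c, hc, (T_none _).symm⟩) (con_mem_BE (Subgroup.mem_top _))

theorem e21_BE (hM : BimCompl ι M) (r : R) : e21 r ∈ BE ι M ⊤ := by
  obtain ⟨c, hc⟩ := hM.sum r
  have h1 : e21 r = e21 (r - ι c) * con ι (e21 c) := by
    apply Units.ext
    rw [Units.val_mul, con_val]
    have h1 : ((e21 c : (Matrix (Fin 2) (Fin 2) K)ˣ).val).map ι = !![1, 0; ι c, 1] := by
      ext a b
      fin_cases a <;> fin_cases b <;> simp [e21]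
    rw [h1]
    change !![1, 0; r, 1] = !![1, 0; r - ι c, 1] * !![1, 0; ι c, 1]
    rw [Matrix.mul_fin_two]
    simp
  rw [h1]
  exact mul_mem (U_le_BE ⊤ (some 0) ⟨r - ι c, hc, (T_zero' _).symm⟩) (con_mem_BE (Subgroup.mem_top _))

theorem GE_le (hM : BimCompl ι M) : GE ι ≤ BE ι M ⊤ := by
  rw [GE, Subgroup.closure_le]
  rintro x (⟨r, hx | hx⟩ | ⟨y, hx⟩)
  · have h1 : x = e12 r := Units.ext hx
    rw [h1]
    exact e12_BE hM r
  · have h1 : x = e21 r := Units.ext hx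
    rw [h1]
    exact e21_BE hM r
  · have h1 : x = con ι y := Units.ext hx
    rw [h1]
    exact con_mem_BE (Subgroup.mem_top _)

/-- **the group `GE₂`** -/
theorem iff_GE [Nontrivial R] (hC : ClosedE C) (hF : FbC C)
    (hS : ∀ (S : Type) [Group S], Group.IsSolvable S → C S)
    {d : R → WithBot Γ} (h : DegFn ι d) (hM : BimCompl ι M) :
    C ↥(GE ι) ↔ C (Matrix (Fin 2) (Fin 2) K)ˣ := by
  constructor
  · intro h1
    refine hC.base.of_injective _ _ ((con ι).codRestrict (GE ι) fun y => con_mem y)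
      (fun x y hxy => ?_) h1
    exact con_inj (congrArg Subtype.val hxy)
  · intro h1
    have h2 : C (⊤ : Subgroup (Matrix (Fin 2) (Fin 2) K)ˣ) :=
      hC.base.of_injective _ _ (⊤ : Subgroup (Matrix (Fin 2) (Fin 2) K)ˣ).subtype
        Subtype.val_injective h1
    exact hC.base.of_injective _ _ (Subgroup.inclusion (GE_le hM)) (Subgroup.inclusion_injective _)
      (main_BE hC hF hS h hM ⊤ h2)

section alg

variable {k : Type} [Field k] [Algebra k R] [Nontrivial R]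

theorem exists_compl : ∃ M : AddSubgroup R, BimCompl (algebraMap k R) M := by
  obtain ⟨M, hM⟩ := Submodule.exists_isCompl (LinearMap.range (Algebra.linearMap k R))
  refine ⟨M.toAddSubgroup, fun c m hm => ?_, fun c m hm => ?_, fun r => ?_, fun c hc => ?_⟩
  · rw [← Algebra.smul_def]
    exact M.smul_mem c hm
  · rw [← Algebra.commutes, ← Algebra.smul_def]
    exact M.smul_mem c hm
  · have h1 : r ∈ LinearMap.range (Algebra.linearMap k R) ⊔ M := by
      rw [hM.sup_eq_top]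
      exact Submodule.mem_top
    obtain ⟨_, ⟨c, rfl⟩, m, hm, rfl⟩ := Submodule.mem_sup.1 h1
    refine ⟨c, ?_⟩
    have h2 : Algebra.linearMap k R c + m - algebraMap k R c = m := by
      rw [Algebra.linearMap_apply, add_sub_cancel_left]
    rw [h2]
    exact hm
  · have h1 : algebraMap k R c ∈ LinearMap.range (Algebra.linearMap k R) ⊓ M := ⟨⟨c, rfl⟩, hc⟩
    rw [hM.inf_eq_bot, Submodule.mem_bot] at h1
    exact (algebraMap k R).injective (by rw [h1, map_zero])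

/-- **algebras over fields with a degree function** -/
theorem iff_alg (hC : ClosedE C) (hF : FbC C)
    (hS : ∀ (S : Type) [Group S], Group.IsSolvable S → C S)
    {d : R → WithBot Γ} (h : DegFn (algebraMap k R) d) :
    C ↥(GE (algebraMap k R)) ↔ C (Matrix (Fin 2) (Fin 2) k)ˣ := by
  obtain ⟨M, hM⟩ := exists_compl (k := k) (R := R)
  exact iff_GE hC hF hS h hM

end alg

end Pool.Agent.Helper492_GE.Bim
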