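import Pool.Agent.R684.FP.Main

set_option autoImplicit false

/-!
Unipotent subgroups of `GL₂` of a ring with a degree function generate their free product.
-/

namespace Pool.Agent.Helper492_GE

variable {K R : Type} [DivisionRing K] [Ring R]

/-- `R` is an augmented ring over the division ring `K` with a degree function `d` such that the
elements of degree at most zero are the constants -/
structure Graded (ι : K →+* R) (ε : R →+* K) (d : R → WithBot ℕ) : Prop where
  ret : ∀ c, ε (ι c) = c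
  bot : ∀ a, d a = ⊥ ↔ a = 0
  mul : ∀ a b, d (a * b) = d a + d b
  add : ∀ a b, d (a + b) ≤ max (d a) (d b)
  const : ∀ a, d a ≤ 0 ↔ a ∈ Set.range ι

/-- vectors on the lines of `K²` -/
def v : Option K → Fin 2 → K
  | none => ![1, 0]
  | some c => ![c, 1]

/-- linear forms on `K²` -/
def φ : Option K → Fin 2 → K
  | none => ![0, 1]
  | some c => ![1, -c]

/-- the value of a form at a vector -/
def pr (j k : Option K) : K := φ j 0 * v k 0 + φ j 1 * v k 1

theorem pr_self (i : Option K) : pr i i = 0 := by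
  rcases i with _ | c <;> simp [pr, φ, v]

theorem pr_ne {j k : Option K} (h : j ≠ k) : pr j k ≠ 0 := by
  rcases j with _ | c <;> rcases k with _ | c'
  · exact absurd rfl h
  · simp [pr, φ, v]
  · simp [pr, φ, v]
  · simp only [pr, φ, v, Matrix.cons_val_zero, Matrix.cons_val_one, one_mul, mul_one]
    intro h1
    apply h
    rw [← sub_eq_add_neg, sub_eq_zero] at h1
    rw [h1]

/-- the matrix `v i * f * φ j` -/
def T (ι : K →+* R) (i j : Option K) (f : R) : Matrix (Fin 2) (Fin 2) R :=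
  Matrix.of fun a b => ι (v i a) * f * ι (φ j b)

theorem T_apply (ι : K →+* R) (i j : Option K) (f : R) (a b : Fin 2) :
    T ι i j f a b = ι (v i a) * f * ι (φ j b) := rfl

theorem T_mul (ι : K →+* R) (i j k l : Option K) (f g : R) :
    T ι i j f * T ι k l g = T ι i l (f * ι (pr j k) * g) := by
  ext a b
  rw [Matrix.mul_apply, Fin.sum_univ_two]
  simp only [T_apply, pr, map_add, map_mul]
  noncomm_ring

theorem T_add (ι : K →+* R) (i j : Option K) (f g : R) :
    T ι i j (f + g) = T ι i j f + T ι i j g := by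
  ext a b
  simp only [T_apply, Matrix.add_apply, mul_add, add_mul]

theorem T_zero (ι : K →+* R) (i j : Option K) : T ι i j 0 = 0 := by
  ext a b
  simp only [T_apply, mul_zero, zero_mul, Matrix.zero_apply]

theorem T_sq (ι : K →+* R) (i : Option K) (f g : R) : T ι i i f * T ι i i g = 0 := by
  rw [T_mul, pr_self, map_zero, mul_zero, zero_mul, T_zero]

/-- the unipotent subgroup of a line -/
def U (ι : K →+* R) (ε : R →+* K) (i : Option K) : Subgroup (Matrix (Fin 2) (Fin 2) R)ˣ where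
  carrier := {x | ∃ f : R, ε f = 0 ∧ x.val = 1 + T ι i i f}
  one_mem' := ⟨0, map_zero ε, by rw [T_zero, add_zero]; rfl⟩
  mul_mem' := by
    rintro x y ⟨f, hf, hx⟩ ⟨g, hg, hy⟩
    refine ⟨f + g, by rw [map_add, hf, hg, add_zero], ?_⟩
    rw [Units.val_mul, hx, hy, add_mul, mul_add, mul_add, T_sq, T_add, one_mul, mul_one, one_mul]
    abel
  inv_mem' := by
    rintro x ⟨f, hf, hx⟩
    refine ⟨-f, by rw [map_neg, hf, neg_zero], ?_⟩
    have h1 : x.val * (1 + T ι i i (-f)) = 1 := by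
      have h2 : T ι i i (-f) = - T ι i i f := by
        have h3 := T_add ι i i f (-f)
        rw [add_neg_cancel, T_zero] at h3
        exact eq_neg_of_add_eq_zero_right h3.symm
      rw [hx, h2, add_mul, mul_add, one_mul, one_mul, mul_add, mul_neg, T_sq]
      simp
    calc (x⁻¹).val = (x⁻¹).val * (x.val * (1 + T ι i i (-f))) := by rw [h1, mul_one]
      _ = 1 + T ι i i (-f) := by rw [← mul_assoc, Units.inv_mul, one_mul]

theorem mem_U {ι : K →+* R} {ε : R →+* K} {i : Option K} {x : (Matrix (Fin 2) (Fin 2) R)ˣ} :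
    x ∈ U ι ε i ↔ ∃ f : R, ε f = 0 ∧ x.val = 1 + T ι i i f := Iff.rfl

section deg

variable {ι : K →+* R} {ε : R →+* K} {d : R → WithBot ℕ} (h : Graded ι ε d)

include h

theorem d_zero : d 0 = ⊥ := (h.bot 0).2 rfl

theorem ι_inj {c : K} (hc : ι c = 0) : c = 0 := by rw [← h.ret c, hc, map_zero]

theorem d_const {c : K} (hc : c ≠ 0) : d (ι c) = 0 := by
  have h1 : d (ι c) ≤ 0 := (h.const _).2 ⟨c, rfl⟩
  have h2 : d (ι c) ≠ ⊥ := fun h3 => hc (ι_inj h ((h.bot _).1 h3))
  obtain ⟨n, hn⟩ := WithBot.ne_bot_iff_exists.1 h2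
  rw [← hn] at h1 ⊢
  have h3 : n ≤ 0 := WithBot.coe_le_coe.1 h1
  have h4 : n = 0 := by omega
  rw [h4]
  rfl

theorem d_const_le (c : K) : d (ι c) ≤ 0 := (h.const _).2 ⟨c, rfl⟩

theorem add_lt' {x y : R} {n : WithBot ℕ} (hx : d x < n) (hy : d y < n) : d (x + y) < n :=
  (h.add x y).trans_lt (max_lt hx hy)

theorem mul_lt' {x y : R} {a b : ℕ} (hx : d x ≤ a) (hy : d y < b) :
    d (x * y) < ((a + b : ℕ) : WithBot ℕ) := by
  rw [h.mul]
  rcases hdx : d x with _ | m
  · exact (WithBot.bot_add _).trans_lt (WithBot.bot_lt_coe _)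
  · rcases hdy : d y with _ | n
    · exact (WithBot.add_bot _).trans_lt (WithBot.bot_lt_coe _)
    · rw [hdx] at hx
      rw [hdy] at hy
      have h1 : m ≤ a := WithBot.coe_le_coe.1 hx
      have h2 : n < b := WithBot.coe_lt_coe.1 hy
      exact WithBot.coe_lt_coe.2 (show m + n < a + b by omega)

theorem mul_lt'' {x y : R} {a b : ℕ} (hx : d x < a) (hy : d y ≤ b) :
    d (x * y) < ((a + b : ℕ) : WithBot ℕ) := by
  rw [h.mul]
  rcases hdx : d x with _ | m
  · exact (WithBot.bot_add _).trans_lt (WithBot.bot_lt_coe _)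
  · rcases hdy : d y with _ | n
    · exact (WithBot.add_bot _).trans_lt (WithBot.bot_lt_coe _)
    · rw [hdx] at hx
      rw [hdy] at hy
      have h1 : m < a := WithBot.coe_lt_coe.1 hx
      have h2 : n ≤ b := WithBot.coe_le_coe.1 hy
      exact WithBot.coe_lt_coe.2 (show m + n < a + b by omega)

theorem T_le {i j : Option K} {f : R} {n : ℕ} (hf : d f = n) (a b : Fin 2) :
    d (T ι i j f a b) ≤ n := by
  rw [T_apply, h.mul, h.mul, hf]
  calc d (ι (v i a)) + (n : WithBot ℕ) + d (ι (φ j b)) ≤ 0 + (n : WithBot ℕ) + 0 :=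
        add_le_add (add_le_add (d_const_le h _) le_rfl) (d_const_le h _)
    _ = n := by rw [zero_add, add_zero]

theorem mat_lt {M M' : Matrix (Fin 2) (Fin 2) R} {a b : ℕ} (hM : ∀ i j, d (M i j) ≤ a)
    (hM' : ∀ i j, d (M' i j) < b) (i j : Fin 2) : d ((M * M') i j) < ((a + b : ℕ) : WithBot ℕ) := by
  rw [Matrix.mul_apply, Fin.sum_univ_two]
  exact add_lt' h (mul_lt' h (hM _ _) (hM' _ _)) (mul_lt' h (hM _ _) (hM' _ _))

theorem mat_lt' {M M' : Matrix (Fin 2) (Fin 2) R} {a b : ℕ} (hM : ∀ i j, d (M i j) < a)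
    (hM' : ∀ i j, d (M' i j) ≤ b) (i j : Fin 2) : d ((M * M') i j) < ((a + b : ℕ) : WithBot ℕ) := by
  rw [Matrix.mul_apply, Fin.sum_univ_two]
  exact add_lt' h (mul_lt'' h (hM _ _) (hM' _ _)) (mul_lt'' h (hM _ _) (hM' _ _))

theorem one_lt' {n : ℕ} (hn : 1 ≤ n) (i j : Fin 2) : d ((1 : Matrix (Fin 2) (Fin 2) R) i j) < n := by
  have h0 : (0 : WithBot ℕ) < n := by exact_mod_cast hn
  rw [Matrix.one_apply]
  split_ifs
  · refine lt_of_le_of_lt ?_ h0
    have h1 := d_const_le h (1 : K)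
    rwa [map_one] at h1
  · rw [d_zero h]
    exact WithBot.bot_lt_coe _

theorem deg_pos {f : R} (hε : ε f = 0) (hf : f ≠ 0) : ∃ n : ℕ, 1 ≤ n ∧ d f = n := by
  obtain ⟨n, hn⟩ := WithBot.ne_bot_iff_exists.1 (fun h1 => hf ((h.bot f).1 h1))
  refine ⟨n, ?_, hn.symm⟩
  by_contra h2
  have h3 : n = 0 := by omega
  have h4 : d f ≤ 0 := by
    rw [← hn, h3]
    rfl
  obtain ⟨c, hc⟩ := (h.const f).1 h4
  rw [← hc, h.ret] at hε
  rw [hε, map_zero] at hc
  exact hf hc.symm

end deg

section free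

variable {ι : K →+* R} {ε : R →+* K} {d : R → WithBot ℕ}
variable {G : Type} [Group G] (θ : G →* (Matrix (Fin 2) (Fin 2) R)ˣ) (A : Option K → Subgroup G)

/-- reduced words have a leading term -/
theorem leading (h : Graded ι ε d) (hA : ∀ i, ∀ x ∈ A i, θ x ∈ U ι ε i) (hθ : ∀ x, θ x = 1 → x = 1)
    {i j : Option K} (w : Monoid.CoprodI.NeWord (fun i => A i) i j) :
    ∃ (f : R) (D : ℕ) (E : Matrix (Fin 2) (Fin 2) R), 1 ≤ D ∧ d f = D ∧ (∀ a b, d (E a b) < D) ∧
      (θ (Monoid.CoprodI.lift (fun i => (A i).subtype) w.prod)).val = T ι i j f + E := by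
  induction w with
  | @singleton i x hx =>
    obtain ⟨f, hf, hxf⟩ := mem_U.1 (hA i x x.2)
    have hf0 : f ≠ 0 := by
      rintro rfl
      rw [T_zero, add_zero] at hxf
      exact hx (Subtype.ext (hθ _ (Units.ext hxf)))
    obtain ⟨n, hn, hdn⟩ := deg_pos h hf hf0
    refine ⟨f, n, 1, hn, hdn, one_lt' h hn, ?_⟩
    rw [Monoid.CoprodI.NeWord.prod_singleton, Monoid.CoprodI.lift_of, add_comm]
    exact hxf
  | @append i j k l w₁ hne w₂ ih₁ ih₂ =>
    obtain ⟨f, D, E, hD, hf, hE, h1⟩ := ih₁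
    obtain ⟨f', D', E', hD', hf', hE', h2⟩ := ih₂
    refine ⟨f * ι (pr j k) * f', D + D', T ι i j f * E' + E * T ι k l f' + E * E', by omega, ?_, ?_, ?_⟩
    · rw [h.mul, h.mul, d_const h (pr_ne hne), hf, hf', add_zero]
      rfl
    · intro a b
      have h3 := mat_lt h (T_le h hf) hE' a b (ι := ι) (M := T ι i j f)
      have h4 := mat_lt' h hE (T_le h hf') a b (ι := ι) (M' := T ι k l f')
      have h5 := mat_lt h (M := E) (M' := E') (a := D) (b := D') (fun i j => (hE i j).le) hE' a b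
      rw [Matrix.add_apply, Matrix.add_apply]
      exact add_lt' h (add_lt' h h3 h4) h5
    · rw [Monoid.CoprodI.NeWord.append_prod, map_mul, map_mul, Units.val_mul, h1, h2, add_mul, mul_add,
        mul_add, T_mul]
      abel

theorem ne_one (h : Graded ι ε d) (hA : ∀ i, ∀ x ∈ A i, θ x ∈ U ι ε i) (hθ : ∀ x, θ x = 1 → x = 1)
    {i j : Option K} (w : Monoid.CoprodI.NeWord (fun i => A i) i j) :
    Monoid.CoprodI.lift (fun i => (A i).subtype) w.prod ≠ 1 := by
  intro h0
  obtain ⟨f, D, E, hD, hf, hE, h1⟩ := leading θ A h hA hθ w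
  rw [h0, map_one] at h1
  have h2 : ∀ a b, d (T ι i j f a b) < D := by
    intro a b
    have h3 : T ι i j f = 1 + ι (-1) • E := by
      have h4 : T ι i j f = 1 - E := (sub_eq_of_eq_add h1).symm
      rw [h4, map_neg, map_one, neg_smul, one_smul, sub_eq_add_neg]
    rw [h3, Matrix.add_apply, Matrix.smul_apply, smul_eq_mul]
    refine add_lt' h (one_lt' h hD a b) ?_
    have h5 := mul_lt' h (x := ι (-1)) (y := E a b) (a := 0) (b := D) (d_const_le h _) (hE a b)
    rwa [zero_add] at h5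
  have h3 : ∃ a, v i a ≠ 0 := by
    rcases i with _ | c
    · exact ⟨0, by simp [v]⟩
    · exact ⟨1, by simp [v]⟩
  have h4 : ∃ b, φ j b ≠ 0 := by
    rcases j with _ | c
    · exact ⟨1, by simp [φ]⟩
    · exact ⟨0, by simp [φ]⟩
  obtain ⟨a, ha⟩ := h3
  obtain ⟨b, hb⟩ := h4
  have h5 := h2 a b
  rw [T_apply, h.mul, h.mul, d_const h ha, d_const h hb, hf, zero_add, add_zero] at h5
  exact lt_irrefl _ h5

theorem lift_injective (h : Graded ι ε d) (hA : ∀ i, ∀ x ∈ A i, θ x ∈ U ι ε i)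
    (hθ : ∀ x, θ x = 1 → x = 1) :
    Function.Injective (Monoid.CoprodI.lift fun i => (A i).subtype) := by
  classical
  apply (injective_iff_map_eq_one (Monoid.CoprodI.lift fun i => (A i).subtype)).mpr
  rw [(Monoid.CoprodI.Word.equiv).forall_congr_left]
  intro w Heq
  dsimp [Monoid.CoprodI.Word.equiv] at *
  have hw : w = Monoid.CoprodI.Word.empty := by
    by_contra hnotempty
    obtain ⟨i, j, w, rfl⟩ := Monoid.CoprodI.NeWord.of_word w hnotempty
    exact ne_one θ A h hA hθ w Heq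
  rw [hw, Monoid.CoprodI.Word.prod_empty]

end free

end Pool.Agent.Helper492_GE
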