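import Pool.Agent.Helper492_GE.Free

set_option autoImplicit false

namespace Pool.Agent.Helper492_GE

open Pool.Agent.Y110.FJ Pool.Agent.R684.FP

section solv

/-- an abelian normal subgroup and one more element generate a solvable group -/
theorem solv {G : Type} [Group G] (A : Subgroup G) (hab : ∀ x ∈ A, ∀ y ∈ A, x * y = y * x) (g : G)
    (hg : ∀ x, x ∈ A ↔ g * x * g⁻¹ ∈ A) : Group.IsSolvable ↥(A ⊔ Subgroup.zpowers g) := by
  have hpow : ∀ (n : ℤ) (x : G), x ∈ A → g ^ n * x * (g ^ n)⁻¹ ∈ A := by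
    have h1 : Subgroup.zpowers g ≤ Subgroup.normalizer A := by
      rw [Subgroup.zpowers_le, Subgroup.mem_normalizer_iff]
      exact hg
    intro n x hx
    exact (Subgroup.mem_normalizer_iff.1 (h1 (Subgroup.zpow_mem_zpowers g n)) x).1 hx
  have hdec : ∀ x ∈ A ⊔ Subgroup.zpowers g, ∃ a ∈ A, ∃ n : ℤ, x = a * g ^ n := by
    intro x hx
    rw [← Subgroup.closure_eq A, Subgroup.zpowers_eq_closure, ← Subgroup.closure_union] at hx
    induction hx using Subgroup.closure_induction with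
    | mem x hx =>
      rcases hx with hx | hx
      · exact ⟨x, hx, 0, by rw [zpow_zero, mul_one]⟩
      · rw [Set.mem_singleton_iff] at hx
        exact ⟨1, one_mem _, 1, by rw [hx, zpow_one, one_mul]⟩
    | one => exact ⟨1, one_mem _, 0, by simp⟩
    | mul x y _ _ ihx ihy =>
      obtain ⟨a, ha, n, rfl⟩ := ihx
      obtain ⟨b, hb, m, rfl⟩ := ihy
      refine ⟨a * (g ^ n * b * (g ^ n)⁻¹), mul_mem ha (hpow n b hb), n + m, ?_⟩
      rw [zpow_add]
      group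
    | inv x _ ih =>
      obtain ⟨a, ha, n, rfl⟩ := ih
      refine ⟨g ^ (-n) * a⁻¹ * (g ^ (-n))⁻¹, hpow (-n) _ (inv_mem ha), -n, ?_⟩
      group
  let H := A ⊔ Subgroup.zpowers g
  let B : Subgroup H := A.subgroupOf H
  have hBn : B.Normal := by
    refine ⟨fun x hx y => ?_⟩
    obtain ⟨a, ha, n, hy⟩ := hdec y y.2
    have hx' : (x : G) ∈ A := hx
    change (y : G) * x * (y : G)⁻¹ ∈ A
    rw [hy]
    have h1 := mul_mem (mul_mem ha (hpow n _ hx')) (inv_mem ha)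
    have h2 : a * (g ^ n * (x : G) * (g ^ n)⁻¹) * a⁻¹ = a * g ^ n * x * (a * g ^ n)⁻¹ := by group
    rw [← h2]
    exact h1
  have hBs : Group.IsSolvable B := Group.isSolvable_of_comm fun x y =>
    Subtype.ext (Subtype.ext (hab x.1 x.2 y.1 y.2))
  have hQs : Group.IsSolvable (H ⧸ B) := by
    have hgH : g ∈ H := (le_sup_right : Subgroup.zpowers g ≤ H) (Subgroup.mem_zpowers g)
    let f : Multiplicative ℤ →* H ⧸ B := (QuotientGroup.mk' B).comp (zpowersHom H ⟨g, hgH⟩)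
    refine Group.isSolvable_of_surjective (f := f) ?_
    intro q
    obtain ⟨x, rfl⟩ := QuotientGroup.mk'_surjective B q
    obtain ⟨a, ha, n, hx⟩ := hdec x x.2
    refine ⟨Multiplicative.ofAdd n, ?_⟩
    change QuotientGroup.mk' B (zpowersHom H ⟨g, hgH⟩ (Multiplicative.ofAdd n)) = _
    rw [zpowersHom_apply, toAdd_ofAdd]
    have haH : a ∈ H := (le_sup_left : A ≤ H) ha
    have h1 : x = ⟨a, haH⟩ * (⟨g, hgH⟩ : H) ^ n := Subtype.ext (by
      rw [hx]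
      rfl)
    rw [h1, map_mul]
    have h2 : QuotientGroup.mk' B (⟨a, haH⟩ : H) = 1 := (QuotientGroup.eq_one_iff _).2 ha
    rw [h2, one_mul]
  exact Group.isSolvable_of_ker_le_range B.subtype (QuotientGroup.mk' B) (by
    rw [QuotientGroup.ker_mk', Subgroup.range_subtype])

end solv

variable {K R : Type} [DivisionRing K] [Ring R]

/-- The group generated by the elementary matrices over `R` and the invertible matrices over `K`. -/
def GE (ι : K →+* R) : Subgroup (Matrix (Fin 2) (Fin 2) R)ˣ :=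
  Subgroup.closure {x | (∃ r : R, x.val = !![1, r; 0, 1] ∨ x.val = !![1, 0; r, 1]) ∨
    ∃ y : (Matrix (Fin 2) (Fin 2) K)ˣ, x.val = y.val.map ι}

/-- the constant matrices -/
def con (ι : K →+* R) : (Matrix (Fin 2) (Fin 2) K)ˣ →* (Matrix (Fin 2) (Fin 2) R)ˣ :=
  Units.map (RingHom.toMonoidHom (RingHom.mapMatrix ι :
    Matrix (Fin 2) (Fin 2) K →+* Matrix (Fin 2) (Fin 2) R))

/-- the reduction -/
def red (ε : R →+* K) : (Matrix (Fin 2) (Fin 2) R)ˣ →* (Matrix (Fin 2) (Fin 2) K)ˣ :=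
  Units.map (RingHom.toMonoidHom (RingHom.mapMatrix ε :
    Matrix (Fin 2) (Fin 2) R →+* Matrix (Fin 2) (Fin 2) K))

theorem con_val (ι : K →+* R) (y : (Matrix (Fin 2) (Fin 2) K)ˣ) : (con ι y).val = y.val.map ι := rfl

theorem con_inv_val (ι : K →+* R) (y : (Matrix (Fin 2) (Fin 2) K)ˣ) :
    ((con ι y)⁻¹).val = (y⁻¹).val.map ι := rfl

theorem red_val (ε : R →+* K) (x : (Matrix (Fin 2) (Fin 2) R)ˣ) : (red ε x).val = x.val.map ε := rfl

theorem red_con {ι : K →+* R} {ε : R →+* K} (hr : ∀ c, ε (ι c) = c)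
    (y : (Matrix (Fin 2) (Fin 2) K)ˣ) : red ε (con ι y) = y := by
  apply Units.ext
  ext i j
  exact hr _

theorem T_conj (ι : K →+* R) {i j : Option K} {κ κ' : K} (y : (Matrix (Fin 2) (Fin 2) K)ˣ)
    (hv : ∀ a, y.val a 0 * v i 0 + y.val a 1 * v i 1 = v j a * κ)
    (hφ : ∀ b, φ i 0 * (y⁻¹).val 0 b + φ i 1 * (y⁻¹).val 1 b = κ' * φ j b) (f : R) :
    (con ι y).val * T ι i i f * ((con ι y)⁻¹).val = T ι j j (ι κ * f * ι κ') := by
  rw [con_val, con_inv_val]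
  ext a b
  rw [Matrix.mul_apply, Fin.sum_univ_two, Matrix.mul_apply, Matrix.mul_apply, Fin.sum_univ_two,
    Fin.sum_univ_two]
  simp only [T_apply, Matrix.map_apply]
  have h1 : ι (v j a) * (ι κ * f * ι κ') * ι (φ j b) = ι (v j a * κ) * f * ι (κ' * φ j b) := by
    simp only [map_mul, mul_assoc]
  rw [h1, ← hv a, ← hφ b]
  simp only [map_mul, map_add]
  noncomm_ring

theorem one_vec (x : Fin 2 → K) (a : Fin 2) :
    (1 : Matrix (Fin 2) (Fin 2) K) a 0 * x 0 + (1 : Matrix (Fin 2) (Fin 2) K) a 1 * x 1 = x a := by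
  revert a
  rw [Fin.forall_fin_two]
  constructor <;> simp

theorem vec_one (x : Fin 2 → K) (a : Fin 2) :
    x 0 * (1 : Matrix (Fin 2) (Fin 2) K) 0 a + x 1 * (1 : Matrix (Fin 2) (Fin 2) K) 1 a = x a := by
  revert a
  rw [Fin.forall_fin_two]
  constructor <;> simp

theorem exists_line (y : (Matrix (Fin 2) (Fin 2) K)ˣ) (i : Option K) : ∃ (j : Option K) (κ κ' : K),
    κ ≠ 0 ∧ κ' ≠ 0 ∧ (∀ a, y.val a 0 * v i 0 + y.val a 1 * v i 1 = v j a * κ) ∧
    ∀ b, φ i 0 * (y⁻¹).val 0 b + φ i 1 * (y⁻¹).val 1 b = κ' * φ j b := by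
  obtain ⟨w, hw⟩ : ∃ w : Fin 2 → K, w = fun a => y.val a 0 * v i 0 + y.val a 1 * v i 1 := ⟨_, rfl⟩
  obtain ⟨ψ, hψ⟩ : ∃ ψ : Fin 2 → K, ψ = fun b => φ i 0 * (y⁻¹).val 0 b + φ i 1 * (y⁻¹).val 1 b :=
    ⟨_, rfl⟩
  have hyy : ∀ a b, (y⁻¹).val a 0 * y.val 0 b + (y⁻¹).val a 1 * y.val 1 b =
      (1 : Matrix (Fin 2) (Fin 2) K) a b := by
    intro a b
    rw [← y.inv_mul, Matrix.mul_apply, Fin.sum_univ_two]
  have hyy' : ∀ a b, y.val a 0 * (y⁻¹).val 0 b + y.val a 1 * (y⁻¹).val 1 b =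
      (1 : Matrix (Fin 2) (Fin 2) K) a b := by
    intro a b
    rw [← y.mul_inv, Matrix.mul_apply, Fin.sum_univ_two]
  -- `w` and `ψ` are nonzero
  have hw0 : ¬ (w 0 = 0 ∧ w 1 = 0) := by
    rintro ⟨h0, h1⟩
    have h2 : ∀ a, (y⁻¹).val a 0 * w 0 + (y⁻¹).val a 1 * w 1 = v i a := by
      intro a
      have h3 : (y⁻¹).val a 0 * w 0 + (y⁻¹).val a 1 * w 1 =
          ((y⁻¹).val a 0 * y.val 0 0 + (y⁻¹).val a 1 * y.val 1 0) * v i 0 +
          ((y⁻¹).val a 0 * y.val 0 1 + (y⁻¹).val a 1 * y.val 1 1) * v i 1 := by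
        rw [hw]
        noncomm_ring
      rw [h3, hyy, hyy, one_vec]
    have h4 : ∀ a, v i a = 0 := fun a => by rw [← h2 a, h0, h1, mul_zero, mul_zero, add_zero]
    rcases i with _ | c
    · have := h4 0
      simp [v] at this
    · have := h4 1
      simp [v] at this
  have hψ0 : ¬ (ψ 0 = 0 ∧ ψ 1 = 0) := by
    rintro ⟨h0, h1⟩
    have h2 : ∀ b, ψ 0 * y.val 0 b + ψ 1 * y.val 1 b = φ i b := by
      intro b
      have h3 : ψ 0 * y.val 0 b + ψ 1 * y.val 1 b =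
          φ i 0 * ((y⁻¹).val 0 0 * y.val 0 b + (y⁻¹).val 0 1 * y.val 1 b) +
          φ i 1 * ((y⁻¹).val 1 0 * y.val 0 b + (y⁻¹).val 1 1 * y.val 1 b) := by
        rw [hψ]
        noncomm_ring
      rw [h3, hyy, hyy, vec_one]
    have h4 : ∀ a, φ i a = 0 := fun a => by rw [← h2 a, h0, h1, zero_mul, zero_mul, add_zero]
    rcases i with _ | c
    · have := h4 1
      simp [φ] at this
    · have := h4 0
      simp [φ] at this
  -- the pairing vanishes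
  have hp : ψ 0 * w 0 + ψ 1 * w 1 = 0 := by
    have h3 : ψ 0 * w 0 + ψ 1 * w 1 =
        φ i 0 * (((y⁻¹).val 0 0 * y.val 0 0 + (y⁻¹).val 0 1 * y.val 1 0) * v i 0 +
          ((y⁻¹).val 0 0 * y.val 0 1 + (y⁻¹).val 0 1 * y.val 1 1) * v i 1) +
        φ i 1 * (((y⁻¹).val 1 0 * y.val 0 0 + (y⁻¹).val 1 1 * y.val 1 0) * v i 0 +
          ((y⁻¹).val 1 0 * y.val 0 1 + (y⁻¹).val 1 1 * y.val 1 1) * v i 1) := by
      rw [hψ, hw]
      noncomm_ring
    rw [h3, hyy, hyy, hyy, hyy]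
    have h4 := pr_self i
    unfold pr at h4
    simpa using h4
  have hwa : ∀ a, y.val a 0 * v i 0 + y.val a 1 * v i 1 = w a := fun a => by rw [hw]
  have hψb : ∀ b, φ i 0 * (y⁻¹).val 0 b + φ i 1 * (y⁻¹).val 1 b = ψ b := fun b => by rw [hψ]
  simp only [hwa, hψb]
  by_cases h1 : w 1 = 0
  · have h0 : w 0 ≠ 0 := fun h => hw0 ⟨h, h1⟩
    have hψz : ψ 0 = 0 := by
      rw [h1, mul_zero, add_zero] at hp
      exact (mul_eq_zero.1 hp).resolve_right h0
    refine ⟨none, w 0, ψ 1, h0, fun h => hψ0 ⟨hψz, h⟩, fun a => ?_, fun b => ?_⟩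
    · fin_cases a
      · simp [v]
      · simp [v, h1]
    · fin_cases b
      · simp [φ, hψz]
      · simp [φ]
  · have h2 : ψ 1 = -(ψ 0 * (w 0 * (w 1)⁻¹)) := by
      have h3 : ψ 1 * w 1 = -(ψ 0 * w 0) := eq_neg_of_add_eq_zero_right hp
      calc ψ 1 = ψ 1 * w 1 * (w 1)⁻¹ := by rw [mul_assoc, mul_inv_cancel₀ h1, mul_one]
        _ = _ := by rw [h3, neg_mul, mul_assoc]
    have hψz : ψ 0 ≠ 0 := fun h => hψ0 ⟨h, by rw [h2, h, zero_mul, neg_zero]⟩
    refine ⟨some (w 0 * (w 1)⁻¹), w 1, ψ 0, h1, hψz, fun a => ?_, fun b => ?_⟩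
    · fin_cases a
      · simp [v, mul_assoc, inv_mul_cancel₀ h1]
      · simp [v]
    · fin_cases b
      · simp [φ]
      · simp [φ, h2]

theorem conj_U (ι : K →+* R) (ε : R →+* K) {i j : Option K} {κ κ' : K}
    (hκ : κ ≠ 0) (hκ' : κ' ≠ 0) (y : (Matrix (Fin 2) (Fin 2) K)ˣ)
    (hv : ∀ a, y.val a 0 * v i 0 + y.val a 1 * v i 1 = v j a * κ)
    (hφ : ∀ b, φ i 0 * (y⁻¹).val 0 b + φ i 1 * (y⁻¹).val 1 b = κ' * φ j b)
    (x : (Matrix (Fin 2) (Fin 2) R)ˣ) :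
    x ∈ U ι ε i ↔ con ι y * x * (con ι y)⁻¹ ∈ U ι ε j := by
  constructor
  · rintro ⟨f, hf, hx⟩
    refine ⟨ι κ * f * ι κ', by rw [map_mul, map_mul, hf, mul_zero, zero_mul], ?_⟩
    rw [← T_conj ι y hv hφ, Units.val_mul, Units.val_mul, hx, mul_add, add_mul, mul_one, Units.mul_inv]
  · rintro ⟨f, hf, hx⟩
    refine ⟨ι κ⁻¹ * f * ι κ'⁻¹, by rw [map_mul, map_mul, hf, mul_zero, zero_mul], ?_⟩
    have h1 : T ι j j f = (con ι y).val * T ι i i (ι κ⁻¹ * f * ι κ'⁻¹) * ((con ι y)⁻¹).val := by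
      rw [T_conj ι y hv hφ]
      congr 1
      calc f = ι (κ * κ⁻¹) * f * ι (κ'⁻¹ * κ') := by
            rw [mul_inv_cancel₀ hκ, inv_mul_cancel₀ hκ', map_one, one_mul, mul_one]
        _ = _ := by simp only [map_mul, mul_assoc]
    rw [h1, Units.val_mul, Units.val_mul] at hx
    have h2 : x.val = ((con ι y)⁻¹).val * ((con ι y).val * x.val * ((con ι y)⁻¹).val) * (con ι y).val := by
      simp only [mul_assoc, Units.inv_mul, mul_one]
      rw [← mul_assoc, Units.inv_mul, one_mul]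
    rw [h2, hx, mul_add, add_mul, mul_one, Units.inv_mul]
    congr 1
    simp only [mul_assoc, Units.inv_mul, mul_one]
    rw [← mul_assoc, Units.inv_mul, one_mul]

end Pool.Agent.Helper492_GE
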